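import Pool.Agent.H48.FD.Defs

/-!
# Proof transformations

Substitution, modus ponens, evaluation of substituted formulas and the transfer lemma.
-/

namespace Pool.Agent.H48.FD

open Fm

namespace Fm

lemma length_encName (w : List Bool) : (encName w).length = 2 * w.length + 1 := by
  induction w with
  | nil => rfl
  | cons b w ih => simp only [encName, List.length_cons, ih]; ring

@[simp] lemma size_var (w : List Bool) : (var w).size = 2 * w.length + 2 := by
  simp only [size, enc, List.length_cons, length_encName]

@[simp] lemma size_neg (A : Fm) : (neg A).size = A.size + 2 := by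
  simp only [size, enc, List.length_cons]

@[simp] lemma size_imp (A B : Fm) : (imp A B).size = A.size + B.size + 2 := by
  simp only [size, enc, List.length_cons, List.length_append]

lemma two_le_size (A : Fm) : 2 ≤ A.size := by
  cases A <;> simp

lemma size_subst_le (σ : List Bool → Fm) (c : ℕ) (hc : 1 ≤ c)
    (h : ∀ w, (σ w).size ≤ c * (var w).size) (A : Fm) : (A.subst σ).size ≤ c * A.size := by
  induction A with
  | var w => exact h w
  | neg A ih => simp only [subst, size_neg]; nlinarith
  | imp A B ihA ihB => simp only [subst, size_imp]; nlinarith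

lemma subst_subst (σ τ : List Bool → Fm) (A : Fm) :
    (A.subst σ).subst τ = A.subst (fun w => (σ w).subst τ) := by
  induction A with
  | var w => rfl
  | neg A ih => simp only [subst, ih]
  | imp A B ihA ihB => simp only [subst, ihA, ihB]

lemma subst_var (A : Fm) : A.subst var = A := by
  induction A with
  | var w => rfl
  | neg A ih => simp only [subst, ih]
  | imp A B ihA ihB => simp only [subst, ihA, ihB]

lemma eval_subst (σ : List Bool → Fm) (v : List Bool → Bool) (A : Fm) :
    (A.subst σ).eval v = A.eval (fun w => (σ w).eval v) := by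
  induction A with
  | var w => rfl
  | neg A ih => simp only [subst, eval, ih]
  | imp A B ihA ihB => simp only [subst, eval, ihA, ihB]

lemma Taut.subst {A : Fm} (h : A.Taut) (σ : List Bool → Fm) : (A.subst σ).Taut := by
  intro v
  rw [eval_subst]
  exact h _

/-- The variable occurrences of a formula. -/
def vars : Fm → List (List Bool)
  | var w => [w]
  | neg A => vars A
  | imp A B => vars A ++ vars B

lemma length_vars_le (A : Fm) : A.vars.length ≤ A.size := by
  induction A with
  | var w => simp [vars]
  | neg A ih => simp only [vars, size_neg]; omega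
  | imp A B ihA ihB => simp only [vars, size_imp, List.length_append]; omega

/-- Number of nodes. -/
def nodes : Fm → ℕ
  | var _ => 1
  | neg A => nodes A + 1
  | imp A B => nodes A + nodes B + 1

lemma nodes_rename (ρ : List Bool → List Bool) (A : Fm) :
    (A.subst (fun w => var (ρ w))).nodes = A.nodes := by
  induction A with
  | var w => rfl
  | neg A ih => simp only [subst, nodes, ih]
  | imp A B ihA ihB => simp only [subst, nodes, ihA, ihB]

end Fm

/-! ### Proofs as lists -/

lemma IsProof.append {S π₁ π₂ : List Fm} (h₁ : IsProof S π₁) (h₂ : IsProof S π₂) :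
    IsProof S (π₁ ++ π₂) := by
  intro i A hi
  rcases lt_or_ge i π₁.length with hlt | hge
  · rw [List.getElem?_append_left hlt] at hi
    rcases h₁ i A hi with h | ⟨j, k, B, hj, hk, h1, h2⟩
    · exact Or.inl h
    · refine Or.inr ⟨j, k, B, hj, hk, ?_, ?_⟩
      · rw [List.getElem?_append_left (by omega)]; exact h1
      · rw [List.getElem?_append_left (by omega)]; exact h2
  · rw [List.getElem?_append_right hge] at hi
    rcases h₂ _ A hi with h | ⟨j, k, B, hj, hk, h1, h2⟩
    · exact Or.inl h
    · refine Or.inr ⟨π₁.length + j, π₁.length + k, B, by omega, by omega, ?_, ?_⟩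
      · rw [List.getElem?_append_right (by omega)]; simpa using h1
      · rw [List.getElem?_append_right (by omega)]; simpa using h2

lemma IsProof.snoc {S π : List Fm} (h : IsProof S π) {A B : Fm} (h1 : imp B A ∈ π)
    (h2 : B ∈ π) : IsProof S (π ++ [A]) := by
  intro i X hi
  rcases lt_or_ge i π.length with hlt | hge
  · rw [List.getElem?_append_left hlt] at hi
    rcases h i X hi with h | ⟨j, k, B, hj, hk, h1, h2⟩
    · exact Or.inl h
    · refine Or.inr ⟨j, k, B, hj, hk, ?_, ?_⟩
      · rw [List.getElem?_append_left (by omega)]; exact h1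
      · rw [List.getElem?_append_left (by omega)]; exact h2
  · rw [List.getElem?_append_right hge] at hi
    have hXA : X = A := by
      rcases Nat.eq_zero_or_pos (i - π.length) with h0 | hpos
      · rw [h0] at hi; simpa using hi.symm
      · rw [List.getElem?_eq_none (by simp; omega)] at hi
        exact absurd hi (by simp)
    subst hXA
    obtain ⟨j, hj⟩ := List.mem_iff_getElem?.1 h1
    obtain ⟨k, hk⟩ := List.mem_iff_getElem?.1 h2
    have hj' : j < π.length := by
      by_contra hc
      rw [List.getElem?_eq_none (by omega)] at hj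
      exact absurd hj (by simp)
    have hk' : k < π.length := by
      by_contra hc
      rw [List.getElem?_eq_none (by omega)] at hk
      exact absurd hk (by simp)
    refine Or.inr ⟨j, k, B, by omega, by omega, ?_, ?_⟩
    · rw [List.getElem?_append_left hj']; exact hj
    · rw [List.getElem?_append_left hk']; exact hk

lemma IsProof.map {S π : List Fm} (h : IsProof S π) (τ : List Bool → Fm) :
    IsProof S (π.map (Fm.subst τ)) := by
  intro i A hi
  rw [List.getElem?_map] at hi
  obtain ⟨X, hX, rfl⟩ := Option.map_eq_some_iff.1 hi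
  rcases h i X hX with ⟨P, hP, σ, rfl⟩ | ⟨j, k, B, hj, hk, h1, h2⟩
  · exact Or.inl ⟨P, hP, _, subst_subst σ τ P⟩
  · refine Or.inr ⟨j, k, B.subst τ, hj, hk, ?_, ?_⟩
    · rw [List.getElem?_map, h1]; rfl
    · rw [List.getElem?_map, h2]; rfl

lemma IsProof.take {S π : List Fm} (h : IsProof S π) (n : ℕ) : IsProof S (π.take n) := by
  intro i A hi
  have hin : i < n := by
    by_contra hc
    rw [List.getElem?_eq_none (by simp; omega)] at hi
    exact absurd hi (by simp)
  rw [List.getElem?_take_of_lt hin] at hi
  rcases h i A hi with h | ⟨j, k, B, hj, hk, h1, h2⟩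
  · exact Or.inl h
  · refine Or.inr ⟨j, k, B, hj, hk, ?_, ?_⟩
    · rw [List.getElem?_take_of_lt (by omega)]; exact h1
    · rw [List.getElem?_take_of_lt (by omega)]; exact h2

@[simp] lemma proofSize_append (π₁ π₂ : List Fm) :
    proofSize (π₁ ++ π₂) = proofSize π₁ + proofSize π₂ := by
  simp [proofSize]

@[simp] lemma proofSize_single (A : Fm) : proofSize [A] = A.size := by
  simp [proofSize]

lemma proofSize_map_le (τ : List Bool → Fm) (c : ℕ) (hc : 1 ≤ c)
    (h : ∀ w, (τ w).size ≤ c * (var w).size) (π : List Fm) :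
    proofSize (π.map (Fm.subst τ)) ≤ c * proofSize π := by
  induction π with
  | nil => simp [proofSize]
  | cons A π ih =>
    have h1 := size_subst_le τ c hc h A
    simp only [proofSize, List.map_cons, List.sum_cons] at ih ⊢
    nlinarith

lemma proofSize_take_le (π : List Fm) (n : ℕ) : proofSize (π.take n) ≤ proofSize π := by
  conv_rhs => rw [← List.take_append_drop n π]
  rw [proofSize_append]
  omega

/-- `A` occurs in some proof of size at most `n`. -/
def Der (S : List Fm) (n : ℕ) (A : Fm) : Prop :=
  ∃ π : List Fm, IsProof S π ∧ A ∈ π ∧ proofSize π ≤ n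

lemma Der.proofOf {S : List Fm} {n : ℕ} {A : Fm} (h : Der S n A) :
    ∃ π : List Fm, ProofOf S π A ∧ proofSize π ≤ n := by
  obtain ⟨π, hπ, hA, hs⟩ := h
  obtain ⟨i, hi⟩ := List.mem_iff_getElem?.1 hA
  refine ⟨π.take (i + 1), ⟨hπ.take _, ?_⟩, le_trans (proofSize_take_le _ _) hs⟩
  have hlt : i < π.length := by
    by_contra hc
    rw [List.getElem?_eq_none (by omega)] at hi
    exact absurd hi (by simp)
  rw [List.take_add_one, hi]
  simp

lemma ProofOf.der {S π : List Fm} {A : Fm} (h : ProofOf S π A) : Der S (proofSize π) A :=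
  ⟨π, h.1, List.mem_of_getLast? h.2, le_refl _⟩

lemma Der.mono {S : List Fm} {m n : ℕ} {A : Fm} (h : Der S m A) (hmn : m ≤ n) : Der S n A := by
  obtain ⟨π, h1, h2, h3⟩ := h
  exact ⟨π, h1, h2, le_trans h3 hmn⟩

lemma Der.mp {S : List Fm} {m n : ℕ} {A B : Fm} (h1 : Der S m (imp B A)) (h2 : Der S n B) :
    Der S (m + n + A.size) A := by
  obtain ⟨π₁, h11, h12, h13⟩ := h1
  obtain ⟨π₂, h21, h22, h23⟩ := h2
  refine ⟨π₁ ++ π₂ ++ [A], (h11.append h21).snoc (B := B) ?_ ?_, by simp, ?_⟩
  · exact List.mem_append_left _ h12
  · exact List.mem_append_right _ h22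
  · rw [proofSize_append, proofSize_append, proofSize_single]; omega

lemma Der.subst {S : List Fm} {n : ℕ} {A : Fm} (h : Der S n A) (τ : List Bool → Fm) (c : ℕ)
    (hc : 1 ≤ c) (hτ : ∀ w, (τ w).size ≤ c * (var w).size) : Der S (c * n) (A.subst τ) := by
  obtain ⟨π, h1, h2, h3⟩ := h
  exact ⟨π.map (Fm.subst τ), h1.map τ, List.mem_map_of_mem h2,
    le_trans (proofSize_map_le τ c hc hτ π) (Nat.mul_le_mul_left _ h3)⟩

/-- The substitution sending the variable `[]` to `X` and all others to `Y`. -/
def two (X Y : Fm) : List Bool → Fm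
  | [] => X
  | _ :: _ => Y

lemma two_size (X Y : Fm) (w : List Bool) :
    (two X Y w).size ≤ (X.size + Y.size) * (var w).size := by
  have h : 2 ≤ (var w).size := two_le_size _
  cases w with
  | nil => simp only [two]; nlinarith [Nat.zero_le X.size, Nat.zero_le Y.size]
  | cons b w => simp only [two]; nlinarith [Nat.zero_le X.size, Nat.zero_le Y.size]

lemma Der.inst {S : List Fm} {n : ℕ} {A : Fm} (h : Der S n A) (X Y : Fm) :
    Der S ((X.size + Y.size) * n) (A.subst (two X Y)) :=
  h.subst _ _ (by have := two_le_size X; omega) (two_size X Y)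

/-- first scheme variable -/
abbrev vx : Fm := var []
/-- second scheme variable -/
abbrev vy : Fm := var [true]

/-- The truth constant. -/
def top : Fm := imp vx vx

/-- There is a constant `c` bounding proofs of all the scheme instances we need. -/
lemma exists_schemes (F : Frege) : ∃ c : ℕ, 1 ≤ c ∧
    (∀ X Y : Fm, Der F.schemes (c * (X.size + Y.size)) (imp X (neg (neg X)))) ∧
    (∀ X Y : Fm, Der F.schemes (c * (X.size + Y.size)) (imp (neg (neg X)) X)) ∧
    (∀ X Y : Fm, Der F.schemes (c * (X.size + Y.size)) (imp (neg X) (imp X Y))) ∧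
    (∀ X Y : Fm, Der F.schemes (c * (X.size + Y.size)) (imp Y (imp X Y))) ∧
    (∀ X Y : Fm, Der F.schemes (c * (X.size + Y.size)) (imp X (imp (neg Y) (neg (imp X Y))))) ∧
    Der F.schemes c top ∧ Der F.schemes c (neg (neg top)) := by
  have key : ∀ A : Fm, A.Taut → ∃ n, Der F.schemes n A := fun A hA => by
    obtain ⟨π, hπ⟩ := F.complete A hA
    exact ⟨_, hπ.der⟩
  obtain ⟨n1, h1⟩ := key (imp vx (neg (neg vx))) (by intro v; simp [eval])
  obtain ⟨n2, h2⟩ := key (imp (neg (neg vx)) vx) (by intro v; simp [eval])
  obtain ⟨n3, h3⟩ := key (imp (neg vx) (imp vx vy)) (by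
    intro v; simp only [eval]; cases v [] <;> cases v [true] <;> rfl)
  obtain ⟨n4, h4⟩ := key (imp vy (imp vx vy)) (by
    intro v; simp only [eval]; cases v [] <;> cases v [true] <;> rfl)
  obtain ⟨n5, h5⟩ := key (imp vx (imp (neg vy) (neg (imp vx vy)))) (by
    intro v; simp only [eval]; cases v [] <;> cases v [true] <;> rfl)
  obtain ⟨n6, h6⟩ := key top (by intro v; simp [top, eval])
  obtain ⟨n7, h7⟩ := key (neg (neg top)) (by intro v; simp [top, eval])
  refine ⟨n1 + n2 + n3 + n4 + n5 + n6 + n7 + 1, by omega, ?_, ?_, ?_, ?_, ?_,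
    h6.mono (by omega), h7.mono (by omega)⟩
  · intro X Y
    exact (h1.inst X Y).mono (by nlinarith [Nat.zero_le (X.size + Y.size)])
  · intro X Y
    exact (h2.inst X Y).mono (by nlinarith [Nat.zero_le (X.size + Y.size)])
  · intro X Y
    exact (h3.inst X Y).mono (by nlinarith [Nat.zero_le (X.size + Y.size)])
  · intro X Y
    exact (h4.inst X Y).mono (by nlinarith [Nat.zero_le (X.size + Y.size)])
  · intro X Y
    exact (h5.inst X Y).mono (by nlinarith [Nat.zero_le (X.size + Y.size)])

/-- The truth constant with value `b`. -/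
def cst (b : Bool) : Fm := if b then top else neg top

lemma cst_size (b : Bool) : (cst b).size ≤ 8 := by
  cases b <;> simp [cst, top]

/-- The formula or its negation. -/
def sgn (b : Bool) (A : Fm) : Fm := if b then A else neg A

lemma arith_two (c a b x y : ℕ) (hc : 1 ≤ c) (hx : x ≤ 4 * a) (hy : y ≤ 4 * b) :
    3 * (c * (x + y)) + 20 * c + 3 * (x + y) + 40 * c * a ^ 2 + 40 * c * b ^ 2
      ≤ 40 * c * (a + b + 2) ^ 2 := by
  have h1 : c * (x + y) ≤ c * (4 * a + 4 * b) := Nat.mul_le_mul_left _ (by omega)
  have h2 : x + y ≤ c * (x + y) := Nat.le_mul_of_pos_left _ hc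
  have h3 : 40 * c * (a + b + 2) ^ 2 = 40 * c * a ^ 2 + 40 * c * b ^ 2 + 80 * (c * (a * b))
    + 40 * (c * (4 * a + 4 * b)) + 160 * c := by ring
  rw [h3]
  have h4 : 0 ≤ c * (a * b) := Nat.zero_le _
  omega

lemma arith_one (c a x : ℕ) (hc : 1 ≤ c) (hx : x ≤ 4 * a) :
    3 * (c * (x + x)) + 20 * c + 3 * (x + x) + 40 * c * a ^ 2 ≤ 40 * c * (a + 2) ^ 2 := by
  have h1 : c * (x + x) ≤ c * (8 * a) := Nat.mul_le_mul_left _ (by omega)
  have h2 : x + x ≤ c * (x + x) := Nat.le_mul_of_pos_left _ hc
  have h3 : 40 * c * (a + 2) ^ 2 = 40 * c * a ^ 2 + 20 * (c * (8 * a)) + 160 * c := by ring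
  rw [h3]
  omega

/-- Formulas whose variables are replaced by truth constants are decided by short proofs. -/
lemma decide_proof (F : Frege) : ∃ c : ℕ, 1 ≤ c ∧ ∀ (v : List Bool → Bool) (τ : List Bool → Fm),
    (∀ w, (τ w).size ≤ 4 * (var w).size) → ∀ C : Fm, (∀ w ∈ C.vars, τ w = cst (v w)) →
    Der F.schemes (c * C.size ^ 2) (sgn (C.eval v) (C.subst τ)) := by
  obtain ⟨c, hc, s1, -, s3, s4, s5, s6, s7⟩ := exists_schemes F
  refine ⟨40 * c, by omega, ?_⟩
  intro v τ hτ C
  induction C with
  | var w =>
    intro h
    have hw := h w (by simp [vars])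
    have h2 := two_le_size (var w)
    simp only [Fm.subst, eval, hw]
    have h3 : c ≤ 40 * c * (var w).size ^ 2 := by
      have : 1 ≤ 40 * (var w).size ^ 2 := by nlinarith
      calc c = 1 * c := (one_mul c).symm
        _ ≤ 40 * (var w).size ^ 2 * c := Nat.mul_le_mul_right _ this
        _ = _ := by ring
    cases hv : v w
    · simp only [sgn, cst, Bool.false_eq_true, if_false]
      exact s7.mono h3
    · simp only [sgn, cst, if_true]
      exact s6.mono h3
  | neg A ih =>
    intro h
    have ih := ih h
    have hs := size_subst_le τ 4 (by norm_num) hτ A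
    have har := arith_one c _ _ hc hs
    simp only [Fm.subst, eval, size_neg]
    cases hv : A.eval v
    · rw [hv] at ih
      simp only [sgn, Bool.false_eq_true, if_false] at ih
      simp only [sgn, Bool.not_false, if_true]
      exact ih.mono (by omega)
    · rw [hv] at ih
      simp only [sgn, if_true] at ih
      simp only [sgn, Bool.not_true, Bool.false_eq_true, if_false]
      refine ((s1 (A.subst τ) (A.subst τ)).mp ih).mono ?_
      simp only [size_neg]
      omega
  | imp A B ihA ihB =>
    intro h
    have ihA := ihA (fun w hw => h w (by simp [vars, hw]))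
    have ihB := ihB (fun w hw => h w (by simp [vars, hw]))
    have hsA := size_subst_le τ 4 (by norm_num) hτ A
    have hsB := size_subst_le τ 4 (by norm_num) hτ B
    have har := arith_two c _ _ _ _ hc hsA hsB
    simp only [Fm.subst, eval, size_imp]
    cases hv : A.eval v
    · rw [hv] at ihA
      simp only [sgn, Bool.false_eq_true, if_false] at ihA
      simp only [sgn, Bool.not_false, Bool.true_or, if_true]
      refine ((s3 (A.subst τ) (B.subst τ)).mp ihA).mono ?_
      simp only [size_imp]
      omega
    · rw [hv] at ihA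
      simp only [sgn, if_true] at ihA
      cases hv' : B.eval v
      · rw [hv'] at ihB
        simp only [sgn, Bool.false_eq_true, if_false] at ihB
        simp only [sgn, Bool.not_true, Bool.or_self, Bool.false_eq_true, if_false]
        refine ((((s5 (A.subst τ) (B.subst τ)).mp ihA)).mp ihB).mono ?_
        simp only [size_imp, size_neg]
        omega
      · rw [hv'] at ihB
        simp only [sgn, if_true] at ihB
        simp only [sgn, Bool.not_true, Bool.or_true, if_true]
        refine ((s4 (A.subst τ) (B.subst τ)).mp ihB).mono ?_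
        simp only [size_imp]
        omega

end Pool.Agent.H48.FD
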