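import Mathlib

/-!
# Frege systems over negation and implication

Definitions for MP_576eff_lc: formulas with variables named by binary strings, their bit size,
tautologies, Frege systems, proofs and the size of proofs.
-/

namespace Pool.Agent.H48.FD

/-- Propositional formulas over negation and implication. The variables are named by binary
strings. -/
inductive Fm : Type
  | var : List Bool → Fm
  | neg : Fm → Fm
  | imp : Fm → Fm → Fm

namespace Fm

/-- The self-delimiting code of a binary string: each bit is preceded by a one, and the end is
marked by a zero. -/
def encName : List Bool → List Bool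
  | [] => [false]
  | b :: w => true :: b :: encName w

/-- The (prefix-free) binary code of a formula. -/
def enc : Fm → List Bool
  | var w => true :: encName w
  | neg A => false :: false :: enc A
  | imp A B => false :: true :: (enc A ++ enc B)

/-- The size of a formula: the number of bits of its code. -/
def size (A : Fm) : ℕ := A.enc.length

/-- The value of a formula under a truth assignment. -/
def eval (v : List Bool → Bool) : Fm → Bool
  | var w => v w
  | neg A => !(eval v A)
  | imp A B => !(eval v A) || eval v B

/-- Tautologies: formulas true under every truth assignment. -/
def Taut (A : Fm) : Prop := ∀ v : List Bool → Bool, A.eval v = true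

/-- Simultaneous substitution of formulas for the variables. -/
def subst (σ : List Bool → Fm) : Fm → Fm
  | var w => σ w
  | neg A => neg (subst σ A)
  | imp A B => imp (subst σ A) (subst σ B)

end Fm

/-- `IsProof S π`: every entry of the list `π` is a substitution instance of a scheme in `S` or
follows by modus ponens from two earlier entries. -/
def IsProof (S : List Fm) (π : List Fm) : Prop :=
  ∀ (i : ℕ) (A : Fm), π[i]? = some A →
    (∃ P ∈ S, ∃ σ : List Bool → Fm, A = P.subst σ) ∨
    ∃ (j k : ℕ) (B : Fm), j < i ∧ k < i ∧ π[j]? = some (Fm.imp B A) ∧ π[k]? = some B

/-- `ProofOf S π A`: the list `π` is a proof from the schemes `S` whose last entry is `A`. -/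
def ProofOf (S : List Fm) (π : List Fm) (A : Fm) : Prop :=
  IsProof S π ∧ π.getLast? = some A

/-- The size of a proof: the total number of bits of all its entries. -/
def proofSize (π : List Fm) : ℕ := (π.map Fm.size).sum

/-- A Frege system: finitely many axiom schemes such that exactly the tautologies are
provable (with modus ponens). -/
structure Frege where
  /-- the axiom schemes -/
  schemes : List Fm
  /-- everything provable is a tautology -/
  sound : ∀ (π : List Fm) (A : Fm), ProofOf schemes π A → A.Taut
  /-- every tautology is provable -/
  complete : ∀ A : Fm, A.Taut → ∃ π : List Fm, ProofOf schemes π A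

/-- The Frege system is polynomially bounded. -/
def Frege.PolyBounded (F : Frege) : Prop :=
  ∃ C k : ℕ, ∀ A : Fm, A.Taut →
    ∃ π : List Fm, ProofOf F.schemes π A ∧ proofSize π ≤ C * (A.size + 1) ^ k

/-- The tautologies of size at most `N` that have no proof of size at most `s`. -/
def Frege.Hard (F : Frege) (N s : ℕ) : Set Fm :=
  {A | A.Taut ∧ A.size ≤ N ∧ ¬ ∃ π : List Fm, ProofOf F.schemes π A ∧ proofSize π ≤ s}

end Pool.Agent.H48.FD
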