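import Pool.Agent.H48.FD.Transfer

/-!
# Density of hard tautologies for Frege systems

For every Frege system `F` over negation and implication: `F` is not polynomially bounded if and
only if, for all `k`, `M` and every `ε > 0`, there are infinitely many `N₀` such that at every
scale `N` with `N₀ ≤ N ≤ N₀ ^ M` one can attach, injectively, to every formula `C` of size at most
`N - N ^ ε` a tautology of size at most `N` of the form `C → D` or `¬ C → D` which has no
`F`-proof of size at most `N ^ k`.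
-/

namespace Pool.Agent.H48.FD.HardDensity

open Pool.Agent.H48.FD

/-- Arithmetic: the overhead of the construction is below `X ^ 3`. -/
lemma overhead (X L n N : ℕ) (hN : N ≤ X ^ L) (hn : n ≤ X) (hX : L + 10 ≤ X) :
    (Nat.log 2 N + 2) * n + 8 ≤ X ^ 3 := by
  have h1 : Nat.log 2 N ≤ L * X := by
    have h2 : X ^ L ≤ 2 ^ (L * X) := by
      calc X ^ L ≤ (2 ^ X) ^ L := Nat.pow_le_pow_left (le_of_lt Nat.lt_two_pow_self) L
        _ = 2 ^ (L * X) := by rw [← pow_mul, mul_comm]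
    calc Nat.log 2 N ≤ Nat.log 2 (2 ^ (L * X)) := Nat.log_mono_right (le_trans hN h2)
      _ = L * X := Nat.log_pow (by norm_num) _
  calc (Nat.log 2 N + 2) * n + 8 ≤ (L * X + 2) * X + 8 := by gcongr
    _ ≤ X ^ 3 := by
      have h3 : (L + 10) * X ^ 2 ≤ X * X ^ 2 := Nat.mul_le_mul_right _ hX
      nlinarith [h3, hX]

/-- One direction: a system which is not polynomially bounded has densely many hard
tautologies, at all scales of arbitrarily long intervals. -/
theorem dense (F : Frege) (hF : ¬ F.PolyBounded) (k M : ℕ) (ε : ℝ) (hε : 0 < ε) (m : ℕ) :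
    ∃ N₀ : ℕ, m ≤ N₀ ∧ ∀ N : ℕ, N₀ ≤ N → N ≤ N₀ ^ M →
      ∃ f : Fm → Fm, Set.InjOn f {C | (C.size : ℝ) ≤ N - (N : ℝ) ^ ε} ∧
        ∀ C : Fm, (C.size : ℝ) ≤ N - (N : ℝ) ^ ε →
          f C ∈ F.Hard N (N ^ k) ∧ ∃ D : Fm, f C = Fm.imp C D ∨ f C = Fm.imp (Fm.neg C) D := by
  obtain ⟨c, hc⟩ := transfer F
  obtain ⟨L, hL⟩ := exists_nat_ge (3 / ε)
  have hLε : (3 : ℝ) ≤ L * ε := by
    rwa [div_le_iff₀ hε] at hL
  have hL1 : 1 ≤ L := by
    rcases Nat.eq_zero_or_pos L with h | h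
    · subst h; norm_num at hLε
    · exact h
  set D : ℕ := m + L * M + 10 with hD
  simp only [Frege.PolyBounded, not_exists, not_forall] at hF
  obtain ⟨A, hA, hAh⟩ := hF ((4 + 4 * c) * D ^ (L * M * (k + 2))) (L * M * (k + 2))
  set X : ℕ := D * (A.size + 1) with hX
  have hDX : D ≤ X := Nat.le_mul_of_pos_right _ (by omega)
  have hX1 : 1 ≤ X := by omega
  have hXL : X ≤ X ^ L := by
    calc X = X ^ 1 := (pow_one X).symm
      _ ≤ X ^ L := Nat.pow_le_pow_right hX1 hL1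
  have hAX : A.size ≤ X := by
    calc A.size ≤ 1 * (A.size + 1) := by omega
      _ ≤ D * (A.size + 1) := Nat.mul_le_mul_right _ (by omega)
  refine ⟨X ^ L, by omega, ?_⟩
  intro N hN₀ hNM
  rw [← pow_mul] at hNM
  have hN1 : 1 ≤ N := by omega
  have hNε : ((X ^ 3 : ℕ) : ℝ) ≤ (N : ℝ) ^ ε := by
    calc ((X ^ 3 : ℕ) : ℝ) = (X : ℝ) ^ (3 : ℝ) := by
          rw [Nat.cast_pow, ← Real.rpow_natCast (X : ℝ) 3]; norm_num
      _ ≤ (X : ℝ) ^ ((L : ℝ) * ε) :=
          Real.rpow_le_rpow_of_exponent_le (by exact_mod_cast hX1) hLε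
      _ = ((X : ℝ) ^ L) ^ ε := by
          rw [Real.rpow_mul (by positivity), Real.rpow_natCast]
      _ ≤ (N : ℝ) ^ ε := by
          refine Real.rpow_le_rpow (by positivity) ?_ (le_of_lt hε)
          exact_mod_cast hN₀
  obtain ⟨f, hinj, hf⟩ := hc A hA N
  have hNN : ∀ C : Fm, (C.size : ℝ) ≤ N - (N : ℝ) ^ ε → C.size + X ^ 3 ≤ N := by
    intro C hC
    have : ((C.size + X ^ 3 : ℕ) : ℝ) ≤ (N : ℝ) := by
      push_cast at hNε ⊢
      linarith
    exact_mod_cast this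
  refine ⟨f, ?_, ?_⟩
  · intro C₁ h₁ C₂ h₂ h
    refine hinj ?_ ?_ h
    · have := hNN C₁ h₁; exact (by omega : C₁.size ≤ N)
    · have := hNN C₂ h₂; exact (by omega : C₂.size ≤ N)
  · intro C hC
    have hCN := hNN C hC
    obtain ⟨h1, h2, h3, h4⟩ := hf C (by omega)
    refine ⟨⟨h1, ?_, ?_⟩, h2⟩
    · have := overhead X (L * M) A.size N hNM hAX (by omega)
      omega
    · rintro ⟨π, hπ, hs⟩
      have h5 := h4 _ ((hπ.der).mono hs)
      obtain ⟨π', hπ', hs'⟩ := h5.proofOf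
      refine hAh π' ⟨hπ', le_trans hs' ?_⟩
      have hCA : C.size + A.size ≤ 2 * N := by omega
      have hN2 : (C.size + A.size) ^ 2 ≤ 4 * N ^ 2 := by
        calc (C.size + A.size) ^ 2 ≤ (2 * N) ^ 2 := Nat.pow_le_pow_left hCA 2
          _ = 4 * N ^ 2 := by ring
      have hk1 : N ^ k ≤ N ^ (k + 2) := Nat.pow_le_pow_right hN1 (by omega)
      have hk2 : N ^ 2 ≤ N ^ (k + 2) := Nat.pow_le_pow_right hN1 (by omega)
      calc 4 * N ^ k + c * (C.size + A.size) ^ 2 ≤ 4 * N ^ (k + 2) + c * (4 * N ^ (k + 2)) := by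
            gcongr
            exact le_trans hN2 (by omega)
        _ = (4 + 4 * c) * N ^ (k + 2) := by ring
        _ ≤ (4 + 4 * c) * (X ^ (L * M)) ^ (k + 2) := by gcongr
        _ = (4 + 4 * c) * D ^ (L * M * (k + 2)) * (A.size + 1) ^ (L * M * (k + 2)) := by
            rw [hX, ← pow_mul, mul_pow]; ring

/-- A Frege system over negation and implication is not polynomially bounded if and only if for
all `k`, `M` and all `ε > 0` there are infinitely many `N₀` such that for every `N` with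
`N₀ ≤ N ≤ N₀ ^ M` the formulas `C` of size at most `N - N ^ ε` can be mapped injectively to
tautologies `C → D` or `¬ C → D` of size at most `N` without proofs of size at most `N ^ k`. -/
theorem result (F : Frege) :
    ¬ F.PolyBounded ↔
      ∀ (k M : ℕ) (ε : ℝ), 0 < ε → ∃ᶠ N₀ : ℕ in Filter.atTop,
        ∀ N : ℕ, N₀ ≤ N → N ≤ N₀ ^ M →
          ∃ f : Fm → Fm, Set.InjOn f {C | (C.size : ℝ) ≤ N - (N : ℝ) ^ ε} ∧
            ∀ C : Fm, (C.size : ℝ) ≤ N - (N : ℝ) ^ ε →
              f C ∈ F.Hard N (N ^ k) ∧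
                ∃ D : Fm, f C = Fm.imp C D ∨ f C = Fm.imp (Fm.neg C) D := by
  constructor
  · intro hF k M ε hε
    rw [Filter.frequently_atTop]
    intro m
    obtain ⟨N, h1, h2⟩ := dense F hF k M ε hε m
    exact ⟨N, h1, h2⟩
  · rintro h ⟨C₀, k₀, hb⟩
    have h1 := h (k₀ + 1) 1 (1 / 2) (by norm_num)
    rw [Filter.frequently_atTop] at h1
    obtain ⟨N, hN, h2⟩ := h1 (2 ^ k₀ * C₀ + 16)
    obtain ⟨f, -, hf⟩ := h2 N (le_refl _) (by rw [pow_one])
    have hN16 : 16 ≤ N := by omega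
    have hsq : (N : ℝ) ^ ((1 : ℝ) / 2) ≤ N - 2 := by
      rw [← Real.sqrt_eq_rpow, Real.sqrt_le_left (by
        have : (16 : ℝ) ≤ N := by exact_mod_cast hN16
        linarith)]
      have : (16 : ℝ) ≤ N := by exact_mod_cast hN16
      nlinarith
    obtain ⟨⟨ht, hs, hno⟩, -⟩ := hf (Fm.var []) (by
      simp only [Fm.size_var, List.length_nil]
      push_cast
      linarith)
    obtain ⟨π, hπ, hπs⟩ := hb _ ht
    apply hno
    refine ⟨π, hπ, le_trans hπs ?_⟩
    calc C₀ * ((f (Fm.var [])).size + 1) ^ k₀ ≤ C₀ * (2 * N) ^ k₀ := by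
          gcongr; omega
      _ = 2 ^ k₀ * C₀ * N ^ k₀ := by rw [mul_pow]; ring
      _ ≤ N * N ^ k₀ := Nat.mul_le_mul_right _ (by omega)
      _ = N ^ (k₀ + 1) := by ring

end Pool.Agent.H48.FD.HardDensity
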