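import Pool.Agent.H48.FD.Core

/-!
# The transfer lemma

A tautology `A` without short proofs gives, for every formula `C`, a tautology `C → A'` or
`¬ C → ¬ ¬ A'` (with `A'` a renaming of `A`) without short proofs.
-/

namespace Pool.Agent.H48.FD

open Fm

/-- There is a string of length `l` which is no prefix of a variable of `C`. -/
lemma exists_prefix (C : Fm) (l : ℕ) (h : C.size < 2 ^ l) :
    ∃ p : List Bool, p.length = l ∧ ∀ w ∈ C.vars, ¬ p <+: w := by
  classical
  let U : Finset (List Bool) := (Finset.univ : Finset (List.Vector Bool l)).image (fun x => x.toList)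
  have hU : U.card = 2 ^ l := by
    rw [Finset.card_image_of_injective _ List.Vector.toList_injective, Finset.card_univ,
      card_vector, Fintype.card_bool]
  let V : Finset (List Bool) := (C.vars.map (List.take l)).toFinset
  have hV : V.card ≤ C.size := by
    refine le_trans (List.toFinset_card_le _) ?_
    rw [List.length_map]
    exact length_vars_le C
  obtain ⟨p, hpU, hpV⟩ := Finset.exists_mem_notMem_of_card_lt_card (s := V) (t := U) (by omega)
  obtain ⟨x, -, hx⟩ := Finset.mem_image.1 hpU
  refine ⟨p, by rw [← hx]; exact x.2, ?_⟩
  intro w hw hpw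
  apply hpV
  rw [List.mem_toFinset, List.mem_map]
  refine ⟨w, hw, ?_⟩
  have hl : p.length = l := by rw [← hx]; exact x.2
  rw [← hl]
  exact (List.prefix_iff_eq_take.1 hpw).symm

/-- Renaming by prepending `p` to all names. -/
def rename (p : List Bool) (A : Fm) : Fm := A.subst (fun w => var (p ++ w))

lemma rename_size (p : List Bool) (A : Fm) : (rename p A).size ≤ (p.length + 1) * A.size := by
  refine size_subst_le _ _ (by omega) ?_ A
  intro w
  simp only [size_var, List.length_append]
  nlinarith

lemma rename_taut (p : List Bool) {A : Fm} (h : A.Taut) : (rename p A).Taut := h.subst _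

open Classical in
/-- The substitution undoing `rename p` and evaluating all other variables. -/
noncomputable def undo (p : List Bool) (v : List Bool → Bool) (w : List Bool) : Fm :=
  if p <+: w then var (w.drop p.length) else cst (v w)

lemma undo_size (p : List Bool) (v : List Bool → Bool) (w : List Bool) :
    (undo p v w).size ≤ 4 * (var w).size := by
  unfold undo
  split_ifs with h
  · simp only [size_var, List.length_drop]; omega
  · have := cst_size (v w)
    simp only [size_var]; omega

lemma undo_rename (p : List Bool) (v : List Bool → Bool) (A : Fm) :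
    (rename p A).subst (undo p v) = A := by
  unfold rename
  rw [subst_subst]
  have : (fun w => (var (p ++ w)).subst (undo p v)) = var := by
    funext w
    simp only [Fm.subst, undo, List.prefix_append, if_true, List.drop_left]
  rw [this, subst_var]

/-- The transfer lemma. -/
lemma transfer (F : Frege) : ∃ c : ℕ, ∀ A : Fm, A.Taut → ∀ N : ℕ, ∃ f : Fm → Fm,
    Set.InjOn f {C | C.size ≤ N} ∧
    ∀ C : Fm, C.size ≤ N → (f C).Taut ∧
      (∃ D : Fm, f C = imp C D ∨ f C = imp (neg C) D) ∧
      (f C).size ≤ C.size + (Nat.log 2 N + 2) * A.size + 8 ∧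
      ∀ s : ℕ, Der F.schemes s (f C) →
        Der F.schemes (4 * s + c * (C.size + A.size) ^ 2) A := by
  classical
  obtain ⟨c₁, hc₁, -, hnn, -, -, -, -, -⟩ := exists_schemes F
  obtain ⟨c₂, hc₂, hdec⟩ := decide_proof F
  refine ⟨c₁ + c₂ + 3, ?_⟩
  intro A hA N
  have hp : ∀ C : Fm, ∃ p : List Bool, p.length = Nat.log 2 N + 1 ∧
      (C.size ≤ N → ∀ w ∈ C.vars, ¬ p <+: w) := by
    intro C
    by_cases hC : C.size ≤ N
    · obtain ⟨p, h1, h2⟩ := exists_prefix C (Nat.log 2 N + 1)
        (lt_of_le_of_lt hC (Nat.lt_pow_succ_log_self (by norm_num) N))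
      exact ⟨p, h1, fun _ => h2⟩
    · exact ⟨List.replicate (Nat.log 2 N + 1) true, by simp, fun h => absurd h hC⟩
  choose p hpl hpv using hp
  let f : Fm → Fm := fun C =>
    if ∃ v, C.eval v = true then imp C (rename (p C) A)
    else imp (neg C) (neg (neg (rename (p C) A)))
  have hnodes : ∀ q, (rename q A).nodes = A.nodes := fun q => nodes_rename _ A
  refine ⟨f, ?_, ?_⟩
  · intro C₁ _ C₂ _ h
    simp only [f] at h
    by_cases h1 : ∃ v, C₁.eval v = true <;> by_cases h2 : ∃ v, C₂.eval v = true
    · rw [if_pos h1, if_pos h2] at h
      exact (Fm.imp.inj h).1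
    · rw [if_pos h1, if_neg h2] at h
      have := congrArg Fm.nodes (Fm.imp.inj h).2
      simp only [nodes, hnodes] at this
      omega
    · rw [if_neg h1, if_pos h2] at h
      have := congrArg Fm.nodes (Fm.imp.inj h).2
      simp only [nodes, hnodes] at this
      omega
    · rw [if_neg h1, if_neg h2] at h
      exact Fm.neg.inj (Fm.imp.inj h).1
  · intro C hC
    have hren := rename_size (p C) A
    rw [hpl C, show Nat.log 2 N + 1 + 1 = Nat.log 2 N + 2 from rfl] at hren
    have hA2 := two_le_size A
    have hC2 := two_le_size C
    have htaut := rename_taut (p C) hA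
    by_cases h1 : ∃ v, C.eval v = true
    · have hf : f C = imp C (rename (p C) A) := if_pos h1
      rw [hf]
      refine ⟨?_, ⟨_, Or.inl rfl⟩, ?_, ?_⟩
      · intro v
        simp only [eval, htaut v, Bool.or_true]
      · simp only [size_imp]
        omega
      · intro s hs
        obtain ⟨v, hv⟩ := h1
        have hτ := undo_size (p C) v
        have e1 := hs.subst (undo (p C) v) 4 (by norm_num) hτ
        simp only [Fm.subst, undo_rename] at e1
        have e2 := hdec v (undo (p C) v) hτ C (fun w hw => by
          simp only [undo, if_neg (hpv C hC w hw)])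
        rw [hv] at e2
        simp only [sgn, if_true] at e2
        refine (e1.mp e2).mono ?_
        nlinarith [Nat.zero_le (c₁ * (C.size + A.size) ^ 2), Nat.zero_le (c₂ * C.size * A.size),
          Nat.zero_le (c₂ * A.size ^ 2), Nat.zero_le (C.size * A.size)]
    · have hf : f C = imp (neg C) (neg (neg (rename (p C) A))) := if_neg h1
      rw [hf]
      refine ⟨?_, ⟨_, Or.inr rfl⟩, ?_, ?_⟩
      · intro v
        simp only [eval, htaut v, Bool.not_true, Bool.not_false, Bool.or_true]
      · simp only [size_imp, size_neg]
        omega
      · intro s hs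
        let v : List Bool → Bool := fun _ => false
        have hv : C.eval v = false := by
          by_contra hc
          exact h1 ⟨v, by simpa using hc⟩
        have hτ := undo_size (p C) v
        have e1 := hs.subst (undo (p C) v) 4 (by norm_num) hτ
        simp only [Fm.subst, undo_rename] at e1
        have e2 := hdec v (undo (p C) v) hτ C (fun w hw => by
          simp only [undo, if_neg (hpv C hC w hw)])
        rw [hv] at e2
        simp only [sgn, Bool.false_eq_true, if_false] at e2
        have e3 := e1.mp e2
        refine ((hnn A A).mp e3).mono ?_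
        simp only [size_neg]
        nlinarith [Nat.zero_le (c₁ * C.size ^ 2), Nat.zero_le (c₁ * C.size * A.size),
          Nat.zero_le (c₂ * C.size * A.size), Nat.zero_le (c₂ * A.size ^ 2),
          Nat.zero_le (C.size * A.size), mul_le_mul_right hA2 (c₁ * A.size)]

end Pool.Agent.H48.FD
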